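import Pool.Agent.WAT.Stmts
import Pool.Agent.Helper85_AT3.LSB
import Pool.Agent.Helper97_PP.Kri
import Pool.Agent.Helper41_AT3.NIL

/-!
# WAT, row WAT: the theorem of Watanabe
-/

open scoped BigOperators commutatorElement

noncomputable section

namespace Pool.Agent.PP.TV.H13

open Pool.Agent.Helper51_AWC Pool.Agent.Helper79_WRA Pool.Agent.PP Pool.Agent.PP.KF
open Pool.Agent.PP.K9 Pool.Agent.PP.K9.H97 Pool.Agent.PP.H75 Pool.Agent.PP.T3 Pool.Agent.PP.T2
open Pool.Agent.PP.T5 Pool.Agent.PP.TB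
open Pool.Agent.PP.T8 (Rv Fq Fr Qt3Stmt FqtStmt)

attribute [local instance] Ideal.Quotient.field

section lem

variable {F G : Type} [Field F] [Group G] [Finite G]

omit [Finite G] in
/-- an element of `V` which commutes with the inertial group, in a subgroup -/
theorem zf_sub' {X V : Subgroup G}
    (hVX : V ≤ X) (hCX : Subgroup.centralizer (V : Set G) ≤ X) {γ : G → F}
    (hγ : ∀ x, x ∉ Subgroup.centralizer (V : Set G) → γ x = 0) {z : G} (hz : z ∈ Zf V γ)
    (hzX : z ∈ X) : (⟨z, hzX⟩ : X) ∈ Zf (V.subgroupOf X) (fun t : X => γ t) := by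
  refine ⟨hz.1, ?_⟩
  rw [T3.H85.Tg_eq hVX hCX hγ]
  apply Subgroup.mem_centralizer_iff.2
  intro t ht
  exact Subtype.ext (Subgroup.mem_centralizer_iff.1 hz.2 (t : G) ht.1)

omit [Field F] [Finite G] in
/-- the centraliser of `z w` in the inertial group -/
theorem tz_eq {V : Subgroup G} {γ : G → F} {z : G} (hz : z ∈ Zf V γ) (w : G) :
    Tg V γ ⊓ Cu (z * w) = Tg V γ ⊓ Cu w := by
  ext t
  rw [Subgroup.mem_inf, Subgroup.mem_inf]
  refine and_congr_right ?_
  intro ht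
  have h1 : t * z = z * t := Subgroup.mem_centralizer_iff.1 hz.2 t ht
  rw [Subgroup.mem_centralizer_singleton_iff, Subgroup.mem_centralizer_singleton_iff]
  constructor
  · intro h
    have h2 : z * (t * w) = z * (w * t) := by
      rw [← mul_assoc, ← h1, mul_assoc, h, mul_assoc]
    exact mul_left_cancel h2
  · intro h
    rw [← mul_assoc, h1, mul_assoc, h, mul_assoc]

omit [Finite G] in
/-- the centralisers of `z` in the centralisers of `w` and of `z w` -/
theorem cu_eq (z w : G) : Cu w ⊓ Cu z = Cu (z * w) ⊓ Cu z := by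
  ext t
  rw [Subgroup.mem_inf, Subgroup.mem_inf]
  rw [Subgroup.mem_centralizer_singleton_iff, Subgroup.mem_centralizer_singleton_iff,
    Subgroup.mem_centralizer_singleton_iff]
  constructor
  · rintro ⟨h1, h2⟩
    refine ⟨?_, h2⟩
    rw [← mul_assoc, h2, mul_assoc, h1, mul_assoc]
  · rintro ⟨h1, h2⟩
    refine ⟨?_, h2⟩
    have h3 : z * (t * w) = z * (w * t) := by
      rw [← mul_assoc, ← h2, mul_assoc, h1, mul_assoc]
    exact mul_left_cancel h3

omit [Finite G] in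
theorem cu_one : (Cu (1 : G)) = ⊤ := by
  rw [eq_top_iff]
  intro t _
  rw [Subgroup.mem_centralizer_singleton_iff, mul_one, one_mul]

omit [Finite G] in
/-- the local block at `1` -/
theorem lc_one {ℓ : ℕ} {e : G → F} {V : Subgroup G} {γ : G → F} (hL : Ld ℓ e V γ) :
    Lc e V γ 1 e := by
  obtain ⟨φ, hφ⟩ : ∃ φ : Cu (1 : G) ≃* G, ∀ t, φ t = (t : G) :=
    ⟨(MulEquiv.subgroupCongr cu_one).trans Subgroup.topEquiv, fun t => rfl⟩
  have h1 : (fun t : Cu (1 : G) => e t) = fun t => e (φ t) := by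
    funext t
    rw [hφ]
  refine ⟨⟨?_, ?_⟩, ?_, hL.und⟩
  · intro x hx
    exact absurd (by rw [cu_one]; exact Subgroup.mem_top x) hx
  · rw [h1]
    exact H20.IsBlk_equiv φ hL.blk
  · rw [h1]
    exact (H20.IsBlk_equiv φ hL.blk).1.2

omit [Finite G] in
theorem ln_one (e : G → F) : ln (fun t : Cu (1 : G) => e t) = ln e := by
  obtain ⟨φ, hφ⟩ : ∃ φ : Cu (1 : G) ≃* G, ∀ t, φ t = (t : G) :=
    ⟨(MulEquiv.subgroupCongr cu_one).trans Subgroup.topEquiv, fun t => rfl⟩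
  have h1 : (fun t : Cu (1 : G) => e t) = fun t => e (φ t) := by
    funext t
    rw [hφ]
  rw [h1]
  exact Pool.Agent.PP.H97.ncard_comp φ e

/-- exchange of two finite sums -/
theorem sum_swap {V X : Type} [Finite V] {S : Set X} (hS : S.Finite) (g : V → X → ℂ) :
    ∑ᶠ v : V, ∑ᶠ χ ∈ S, g v χ = ∑ᶠ χ ∈ S, ∑ᶠ v : V, g v χ := by
  have := Fintype.ofFinite V
  rw [finsum_mem_eq_finite_toFinset_sum _ hS]
  have h1 : ∀ v, ∑ᶠ χ ∈ S, g v χ = ∑ χ ∈ hS.toFinset, g v χ := fun v =>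
    finsum_mem_eq_finite_toFinset_sum _ hS
  simp only [h1, finsum_eq_sum_of_fintype]
  exact Finset.sum_comm

end lem

/-- the Fourier argument -/
theorem four {V : Type} [CommGroup V] [Finite V] (fou : FouStmt) (V₀ : Subgroup V) (f : V → ℂ)
    (h : ∀ lam : V →* ℂ, (∀ v ∈ V₀, lam v = 1) → (∃ v, lam v ≠ 1) → ∑ᶠ v : V, f v * lam v = 0)
    (z : V) (hz : ∀ w ∈ V₀, w ≠ 1 → f (z * w) = f w) : f z = f 1 := by
  have h1 := fou V V₀ f h z
  have h2 : ∑ᶠ w : V₀, (f (z * w) - f w) = 0 := by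
    rw [finsum_sub_distrib (Set.toFinite _) (Set.toFinite _), h1, sub_self]
  rw [finsum_eq_single _ (1 : V₀)] at h2
  · have h3 := sub_eq_zero.1 h2
    rwa [Subgroup.coe_one, mul_one] at h3
  · intro w hw
    rw [hz w w.2, sub_self]
    intro h'
    exact hw (Subtype.ext h')

/-- WAT -/
theorem wat (sta : TW.StaStmt) (tva : TvaStmt) (smm : SmmStmt) (fou : FouStmt) (cpv : CpvStmt)
    (dbl : DblStmt) (loc : T3.LocStmt) (lsb : T3.LsbStmt) (zcp : TB.ZcpStmt)
    (inx : K9.InxStmt) : WatStmt := by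
  intro ℓ hℓ M _ hM
  have hF : GoodF ℓ (FF M) := H50.fld ℓ Fact.out M hM
  suffices hmain : ∀ n : ℕ, ∀ (G : Type) [Group G] [Finite G], Nat.card G = n →
      ∀ (e : G → FF M) (V : Subgroup G) (γ : G → FF M), Ld ℓ e V γ → ∀ z ∈ Zf V γ,
      ∀ b : G → FF M, Lc e V γ z b → ln (fun t : Cu z => b t) = ln e by
    intro G _ _ e V γ h1 z hz b hb
    exact hmain _ G rfl e V γ h1 z hz b hb
  intro n
  induction n using Nat.strong_induction_on with
  | _ n ih =>
  intro G _ _ hn e V γ hL z hz b hb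
  obtain ⟨b', hZ, hS⟩ := sta ℓ M hM G e V γ hL
  have hlc : ∀ v ∈ V, Lc e V γ v (b' v) := fun v hv =>
    ⟨(hZ.lb v hv).1.bx, (hZ.lb v hv).1.und, (hZ.lb v hv).2⟩
  have hzV : z ∈ V := hz.1
  have hbz : b = b' z := (loc ℓ (FF M) hF G e V γ hL z hzV).2 _ _ hb (hlc z hzV)
  have hb1 : b' 1 = e := (loc ℓ (FF M) hF G e V γ hL 1 V.one_mem).2 _ _ (hlc 1 V.one_mem)
    (lc_one hL)
  have hix : ¬ ℓ ∣ ix V γ := inx ℓ M hM G e hL.blk V hL.tp hL.ab γ hL.gam.supp hL.gam.blk hL.und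
  obtain ⟨c1, c2, -⟩ := cpv ℓ (FF M) hF G e V γ hL hix
  obtain ⟨-, -, -, -, -, q6, -⟩ := zcp ℓ M hM G e V V γ b' hZ
  -- the local blocks in the centralisers
  have hprop : ∀ u ∈ V, Cu u ≠ ⊤ → ∃ (hzu : z ∈ Cu u) (c : Cu u → FF M),
      Lc (fun t : Cu u => b' u t) (V.subgroupOf (Cu u)) (fun t : Cu u => γ t) ⟨z, hzu⟩ c ∧
      ln (fun t : Cu (⟨z, hzu⟩ : Cu u) => c t) = ln (fun t : Cu u => b' u t) := by
    intro u hu hne
    have hzu : z ∈ Cu u := Subgroup.mem_centralizer_singleton_iff.2 (hL.ab z hzV u hu)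
    have hVX : V ≤ Cu u := fun v hv => Subgroup.mem_centralizer_singleton_iff.2 (hL.ab v hv u hu)
    have hCX : Subgroup.centralizer (V : Set G) ≤ Cu u := fun g hg =>
      Subgroup.mem_centralizer_singleton_iff.2 (Subgroup.mem_centralizer_iff.1 hg u hu).symm
    obtain ⟨l1, -⟩ := lsb ℓ M hM G e V γ hL u hu (b' u) (hlc u hu)
    have hz' := zf_sub' hVX hCX hL.gam.supp hz hzu
    obtain ⟨c, hc⟩ := (loc ℓ (FF M) hF (Cu u) _ _ _ l1 ⟨z, hzu⟩ hz'.1).1
    refine ⟨hzu, c, hc, ?_⟩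
    have hlt : Nat.card (Cu u) < n := by
      rw [← hn]
      exact lt_of_le_of_ne (Subgroup.card_le_card_group _)
        (fun h => hne (Subgroup.card_eq_iff_eq_top _ |>.1 h))
    exact ih _ hlt (Cu u) rfl _ _ _ l1 _ hz' c hc
  -- the terms for `w ≠ 1` are equal
  have hterm : ∀ w ∈ Vc V γ, w ≠ 1 →
      ln (fun t : Cu (z * w) => b' (z * w) t) = ln (fun t : Cu w => b' w t) := by
    intro w hw hw1
    have hwV : w ∈ V := c1 hw
    have hzwV : z * w ∈ V := V.mul_mem hzV hwV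
    have hnz : w ∉ Zf V γ := by
      intro h
      apply hw1
      rw [← Subgroup.mem_bot, ← c2]
      exact ⟨h, hw⟩
    have hn1 : Cu w ≠ ⊤ := by
      intro h
      apply hnz
      refine ⟨hwV, Subgroup.mem_centralizer_iff.2 ?_⟩
      intro t _
      have h1 : t ∈ Cu w := by rw [h]; exact Subgroup.mem_top t
      exact Subgroup.mem_centralizer_singleton_iff.1 h1
    have hn2 : Cu (z * w) ≠ ⊤ := by
      intro h
      apply hnz
      refine ⟨hwV, Subgroup.mem_centralizer_iff.2 ?_⟩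
      intro t ht
      have h1 : t ∈ Tg V γ ⊓ Cu (z * w) := ⟨ht, by rw [h]; exact Subgroup.mem_top t⟩
      rw [tz_eq hz] at h1
      exact Subgroup.mem_centralizer_singleton_iff.1 h1.2
    obtain ⟨hz1, d1, hd1, he1⟩ := hprop w hwV hn1
    obtain ⟨hz2, d2, hd2, he2⟩ := hprop (z * w) hzwV hn2
    rw [← he1, ← he2]
    exact (dbl ℓ M hM G e V γ hL w hwV (z * w) hzwV (b' w) (b' (z * w)) (hlc w hwV)
      (hlc _ hzwV) ⟨z, hz1⟩ ⟨z, hz2⟩ hzV hzV (cu_eq z w) d1 d2 hd1 hd2).symm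
  -- Fourier inversion
  let _ : CommGroup V := { (inferInstance : Group V) with
    mul_comm := fun a b => Subtype.ext (hL.ab _ a.2 _ b.2) }
  have hfin : (IrrE M e).Finite := T3.H41.irrE_fin M e
  have hcz : ∀ w : G, cz V V γ (z * w) = cz V V γ w := by
    intro w
    unfold cz
    rw [tz_eq hz]
  have hfo := four fou ((Vc V γ).subgroupOf V)
    (fun v : V => (cz V V γ (v : G) : ℂ) * (ln (fun t : Cu (v : G) => b' v t) : ℂ)) ?_ ⟨z, hzV⟩ ?_
  · have h1 : ((cz V V γ z : ℕ) : ℂ) * (ln (fun t : Cu z => b' z t) : ℂ) =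
        ((cz V V γ (1 : G) : ℕ) : ℂ) * (ln (fun t : Cu (1 : G) => b' 1 t) : ℂ) := hfo
    have h2 := hcz 1
    rw [mul_one] at h2
    rw [h2] at h1
    have h3 : ((cz V V γ (1 : G) : ℕ) : ℂ) ≠ 0 := by
      have := q6 1 V.one_mem
      exact_mod_cast this.ne'
    have h4 := mul_left_cancel₀ h3 h1
    have h5 : ln (fun t : Cu z => b' z t) = ln (fun t : Cu (1 : G) => b' 1 t) := by
      exact_mod_cast h4
    rw [hbz, h5, hb1, ln_one]
  · intro lam hl1 hl2
    have hLi : Li V γ lam := by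
      intro t ht v w hw
      have h1 : w * v⁻¹ ∈ (Vc V γ).subgroupOf V := by
        rw [Subgroup.mem_subgroupOf]
        have h2 : ⁅t, (v : G)⁆ ∈ Vc V γ := Subgroup.commutator_mem_commutator ht v.2
        rw [commutatorElement_def, ← hw] at h2
        exact h2
      have h2 := hl1 _ h1
      have h3 : w = w * v⁻¹ * v := by group
      rw [h3, map_mul, h2, one_mul]
    have h1 : ∀ v : V, (cz V V γ (v : G) : ℂ) * (ln (fun t : Cu (v : G) => b' v t) : ℂ) *
        lam v = ∑ᶠ χ ∈ IrrE M e, (cz V V γ (v : G) : ℂ) * lam v *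
          mm M ℓ (Cu (v : G)) v (b' v) χ χ := by
      intro v
      rw [← smm ℓ M hM G e V γ b' hZ v v.2, ← mul_finsum_mem]
      ring
    rw [finsum_congr h1, sum_swap hfin]
    apply finsum_mem_eq_zero_of_forall_eq_zero
    intro χ hχ
    exact tva ℓ M hM G e V γ b' hZ hS lam hLi hl2 χ hχ
  · intro w hw hw1
    have hw' : (w : G) ∈ Vc V γ := Subgroup.mem_subgroupOf.1 hw
    have hw1' : (w : G) ≠ 1 := fun h => hw1 (Subtype.ext h)
    change (cz V V γ (z * w : G) : ℂ) * (ln (fun t : Cu (z * w : G) => b' (z * w) t) : ℂ) =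
      (cz V V γ (w : G) : ℂ) * (ln (fun t : Cu (w : G) => b' w t) : ℂ)
    rw [hcz, hterm _ hw' hw1']

end Pool.Agent.PP.TV.H13
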