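import Pool.Agent.WAT.Stmts
import Pool.Agent.Helper25_AT8.TC8
import Pool.Agent.Helper66_X4.Rks

/-!
# WAT, row CLV: closure of the classes under quotients
-/

open scoped BigOperators commutatorElement

set_option linter.unusedSectionVars false

noncomputable section

namespace Pool.Agent.PP.TV.H13

open Pool.Agent.Helper51_AWC Pool.Agent.Helper79_WRA Pool.Agent.PP Pool.Agent.PP.KF
open Pool.Agent.PP.K9 Pool.Agent.PP.K9.H97 Pool.Agent.PP.H75 Pool.Agent.PP.T3 Pool.Agent.PP.T2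
open Pool.Agent.PP.T5 Pool.Agent.PP.TB
open Pool.Agent.PP.T8 (Rv Fq Fr)
open Pool.Agent.PP.T8.H25 (Ind nrm nrm_fix nrm_map pow_ix ix_le)

attribute [local instance] Ideal.Quotient.field

section clv

variable {F F' G A : Type} [Field F] [Field F'] [Group G] [Finite G] [Group A] [Finite A]
  {V : Subgroup G} {γ : G → F} {V' : Subgroup A} {γ' : A → F'}

theorem vc_le : Vc V γ ≤ V := by
  unfold Vc
  rw [Subgroup.commutator_le]
  intro t ht v hv
  have h1 : t * v * t⁻¹ ∈ V := (Subgroup.mem_normalizer_iff.1 ht.1 v).1 hv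
  rw [commutatorElement_def]
  exact V.mul_mem h1 (V.inv_mem hv)

theorem vc_conj {t v : G} (ht : t ∈ Tg V γ) (hv : v ∈ Vc V γ) : t * v * t⁻¹ ∈ Vc V γ := by
  have h1 : ⁅t, v⁆ ∈ Vc V γ := Subgroup.commutator_mem_commutator ht (vc_le hv)
  have h2 := (Vc V γ).mul_mem h1 hv
  rw [commutatorElement_def] at h2
  have h3 : t * v * t⁻¹ * v⁻¹ * v = t * v * t⁻¹ := by group
  rwa [h3] at h2

/-- the commutators of a quotient -/
theorem vc_quo (π : V →* V') (hπ : Function.Surjective π)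
    (hq : ∀ t' ∈ Tg V' γ', ∃ t ∈ Tg V γ, ∀ v w : V,
      (w : G) = t * v * t⁻¹ → (π w : A) = t' * π v * t'⁻¹) :
    Vc V' γ' ≤ ((((Vc V γ).subgroupOf V).map π).map V'.subtype) := by
  have h0 : Vc V' γ' = ⁅Tg V' γ', V'⁆ := rfl
  rw [h0, Subgroup.commutator_le]
  intro t' ht' v' hv'
  obtain ⟨t, ht, hi⟩ := hq t' ht'
  obtain ⟨v, hv⟩ := hπ ⟨v', hv'⟩
  have h1 : t * v * t⁻¹ ∈ V := (Subgroup.mem_normalizer_iff.1 ht.1 v).1 v.2
  have h2 := hi v ⟨t * v * t⁻¹, h1⟩ rfl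
  refine ⟨π (⟨t * v * t⁻¹, h1⟩ * v⁻¹), ⟨⟨t * v * t⁻¹, h1⟩ * v⁻¹, ?_, rfl⟩, ?_⟩
  · change (⟨t * v * t⁻¹, h1⟩ * v⁻¹ : V) ∈ (Vc V γ).subgroupOf V
    rw [Subgroup.mem_subgroupOf]
    have h3 : ⁅t, (v : G)⁆ ∈ Vc V γ := Subgroup.commutator_mem_commutator ht v.2
    rw [commutatorElement_def] at h3
    exact h3
  · rw [map_mul, map_inv]
    change (π ⟨t * v * t⁻¹, h1⟩ : A) * (π v : A)⁻¹ = ⁅t', v'⁆
    rw [h2, hv, commutatorElement_def]

theorem rk2_quo (h : Fq V γ V' γ') (hr : RK2.Rk2 (Vc V γ)) : RK2.Rk2 (Vc V' γ') := by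
  obtain ⟨π, hπ, hq⟩ := h
  have h1 := vc_quo (γ := γ) (γ' := γ') π hπ hq
  have h2 : RK2.Rk2 ((Vc V γ).subgroupOf V) :=
    X4.rk2_surj (Subgroup.subgroupOfEquivOfLe (vc_le (V := V) (γ := γ))).symm.toMonoidHom
      (Subgroup.subgroupOfEquivOfLe (vc_le (V := V) (γ := γ))).symm.surjective hr
  have h3 := X4.rk2_surj (π.subgroupMap ((Vc V γ).subgroupOf V))
    (π.subgroupMap_surjective _) h2
  have h4 := X4.rk2_surj (V'.subtype.subgroupMap (((Vc V γ).subgroupOf V).map π))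
    (V'.subtype.subgroupMap_surjective _) h3
  exact RK2.rk2_sub (Subgroup.inclusion h1) (Subgroup.inclusion_injective h1) h4

theorem fc_quo {ℓ : ℕ} [Fact ℓ.Prime] (hab : ∀ a ∈ V, ∀ b ∈ V, a * b = b * a)
    (hp' : IsPGroup ℓ V') (hix : ¬ ℓ ∣ ix V γ) (h : Fq V γ V' γ') (hfr : Fc V γ) :
    Fc V' γ' := by
  obtain ⟨π, hπ, hq⟩ := h
  intro t' ht' v' hv' hv1 hc
  obtain ⟨t, ht, hi⟩ := hq t' ht'
  change Ind π t t' at hi
  obtain ⟨y, ⟨v, hvK, hvy⟩, hy⟩ := vc_quo (γ := γ) (γ' := γ') π hπ hq hv'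
  have hvK' : (v : G) ∈ Vc V γ := Subgroup.mem_subgroupOf.1 hvK
  have hv : ((π v : V') : A) = v' := by rw [hvy]; exact hy
  have hN : ∀ x : V, t * x * t⁻¹ ∈ V := fun x => (Subgroup.mem_normalizer_iff.1 ht.1 x).1 x.2
  have habV : ∀ a b : V, a * b = b * a := fun a b => Subtype.ext (hab _ a.2 _ b.2)
  obtain ⟨φ, hφ⟩ : ∃ φ : V →* V, ∀ x : V, (φ x : G) = t * x * t⁻¹ :=
    ⟨{ toFun := fun x => ⟨t * x * t⁻¹, hN x⟩
       map_one' := Subtype.ext (by change t * 1 * t⁻¹ = 1; group)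
       map_mul' := fun x y => Subtype.ext (by
        change t * (x * y) * t⁻¹ = t * x * t⁻¹ * (t * y * t⁻¹); group) }, fun x => rfl⟩
  have hit : ∀ (j : ℕ) (x : V), ((φ^[j] x : V) : G) = t ^ j * x * (t ^ j)⁻¹ := by
    intro j
    induction j with
    | zero => intro x; rw [pow_zero]; change (x : G) = 1 * x * 1⁻¹; group
    | succ j ih =>
      intro x
      rw [Function.iterate_succ_apply', hφ, ih, pow_succ']
      group
  have hm : φ^[ix V γ] v = v := by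
    apply Subtype.ext
    rw [hit, ← Subgroup.mem_centralizer_iff.1 (pow_ix ht) v v.2, mul_inv_cancel_right]
  have h1 := nrm_fix habV φ v (ix V γ)
  rw [hm] at h1
  have h2 : φ (nrm φ v (ix V γ)) = nrm φ v (ix V γ) := mul_right_cancel h1
  have h3 : π (nrm φ v (ix V γ)) = π v ^ ix V γ :=
    nrm_map (t' := t') φ (fun x => hi x (φ x) (hφ x)) v (by rw [hv]; exact hc) _
  have h4 : π v ^ ix V γ ≠ 1 := by
    intro h5
    have hcop : ℓ.Coprime (ix V γ) := (Nat.Prime.coprime_iff_not_dvd Fact.out).2 hix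
    have h6 : (hp'.powEquiv hcop) (π v) = (hp'.powEquiv hcop) 1 := by
      rw [IsPGroup.powEquiv_apply, IsPGroup.powEquiv_apply, h5, one_pow]
    have h7 := (hp'.powEquiv hcop).injective h6
    exact hv1 (hv.symm.trans (congrArg Subtype.val h7))
  have h5 : ((nrm φ v (ix V γ) : V) : G) ≠ 1 := by
    intro h6
    have h7 : nrm φ v (ix V γ) = 1 := Subtype.ext h6
    rw [h7, map_one] at h3
    exact h4 h3.symm
  have hK : ∀ j : ℕ, ((φ^[j] v : V) : G) ∈ Vc V γ := by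
    intro j
    induction j with
    | zero => exact hvK'
    | succ j ih =>
      rw [Function.iterate_succ_apply', hφ]
      exact vc_conj ht ih
  have hK2 : ∀ j : ℕ, ((nrm φ v j : V) : G) ∈ Vc V γ := by
    intro j
    induction j with
    | zero => exact (Vc V γ).one_mem
    | succ j ih => exact (Vc V γ).mul_mem ih (hK j)
  have h6 := hfr t ht _ (hK2 (ix V γ)) h5 (by
    have h7 := hφ (nrm φ v (ix V γ))
    rw [h2] at h7
    conv_rhs => rw [h7]
    group)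
  exact hi.cent hπ h6

end clv

theorem clv : ClvStmt := by
  intro ℓ _ F _ hF G A _ _ _ _ e V γ f V' γ' hL hL' hix hfq
  exact ⟨rk2_quo hfq, fc_quo hL.ab hL'.tp.pg hix hfq, ix_le hfq⟩

end Pool.Agent.PP.TV.H13
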