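import Pool.Agent.WAT.Stmts
import Pool.Agent.Helper85_AT3.LSB
import Pool.Agent.Helper74_PP.Brt
import Pool.Agent.Helper97_PP.Kri

/-!
# WAT, row NLB: the local block of the normaliser block and the normaliser block of the local block
-/

open scoped BigOperators

noncomputable section

namespace Pool.Agent.PP.TV.H13

open Pool.Agent.Helper51_AWC Pool.Agent.Helper79_WRA Pool.Agent.PP Pool.Agent.PP.KF
open Pool.Agent.PP.K9 Pool.Agent.PP.K9.H97 Pool.Agent.PP.H75 Pool.Agent.PP.T3 Pool.Agent.PP.T2

attribute [local instance] Ideal.Quotient.field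

section nested

variable {F G : Type} [Field F] [Group G] [Finite G]

-- a block of a subgroup of a subgroup, as a function on the group
omit [Finite G] in
theorem bx_ext (X : Subgroup G) (K : Subgroup X) {c : X → F} (hc : Bx K c) :
    Bx (K.map X.subtype) (PP.ext0 X c) := by
  refine ⟨?_, ?_⟩
  · intro x hx
    by_cases h : x ∈ X
    · rw [H46.ext0_of_mem _ h]
      apply hc.supp
      intro h'
      exact hx ⟨⟨x, h⟩, h', rfl⟩
    · exact H46.ext0_of_not_mem _ h
  · obtain ⟨φ, hφ⟩ : ∃ φ : ↥(K.map X.subtype) ≃* K, ∀ t, (((φ t : K) : X) : G) = t := by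
      refine ⟨(K.equivMapOfInjective X.subtype X.subtype_injective).symm, fun t => ?_⟩
      have h1 := (K.equivMapOfInjective X.subtype X.subtype_injective).apply_symm_apply t
      have h2 := congrArg (fun s : ↥(K.map X.subtype) => (s : G)) h1
      exact h2
    have h1 := H20.IsBlk_equiv φ hc.blk
    have h2 : (fun t : ↥(K.map X.subtype) => PP.ext0 X c (t : G)) =
        fun t : ↥(K.map X.subtype) => c ((φ t : K) : X) := by
      funext t
      rw [← hφ t, H46.ext0_of_mem _ ((φ t : K) : X).2]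
    rw [h2]
    exact h1

omit [Finite G] in
theorem ln_ext (X : Subgroup G) (K : Subgroup X) (c : X → F) :
    ln (fun t : K => c t) = lnum (K.map X.subtype) (PP.ext0 X c) := by
  rw [← Pool.Agent.PP.H97.lnum_map, H46.restr_ext0]
  rfl

/-- the block over `γ` is unique -/
theorem eq_of_gam {ℓ : ℕ} (hF : GoodF ℓ F) {V Y : Subgroup G} (hVp : IsPGroup ℓ V) (hVY : V ≤ Y)
    {β β' γ : G → F} (hβ : Bx Y β) (hβ' : Bx Y β') (hγ : γ ≠ 0) (h1 : mulF (br V β) γ = γ)
    (h2 : mulF (br V β') γ = γ) : β = β' := by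
  rcases hβ.dich hβ' with h | h
  · exact h
  · exfalso
    apply hγ
    have h3 := br_mulF H74.orb hF hVp (fun p hp => hβ.ix.inv (hVY hp))
      (fun p hp => hβ'.ix.inv (hVY hp))
    have h4 : br V (mulF β β') = 0 := by
      rw [h]
      funext x
      by_cases hx : x ∈ Subgroup.centralizer (V : Set G)
      · rw [H66.br_of_mem hx]
      · rw [H66.br_of_not_mem hx]
        rfl
    rw [h4] at h3
    calc γ = mulF (br V β) (mulF (br V β') γ) := by rw [h2, h1]
      _ = mulF (mulF (br V β) (br V β')) γ := (H20.mulF_assoc _ _ _).symm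
      _ = 0 := by
        rw [← h3]
        funext x
        unfold mulF
        simp

/-- the blocks over `γ` in the subgroup and in the group -/
theorem gam_ext {V X : Subgroup G} (hVX : V ≤ X) (hCX : Subgroup.centralizer (V : Set G) ≤ X)
    {c : X → F} {γ : G → F} (hγ : ∀ x, x ∉ Subgroup.centralizer (V : Set G) → γ x = 0)
    (h : mulF (br (V.subgroupOf X) c) (fun t : X => γ t) = fun t : X => γ t) :
    mulF (br V (PP.ext0 X c)) γ = γ := by
  have hs : ∀ x, x ∉ X → br V (PP.ext0 X c) x = 0 := fun x hx =>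
    H66.br_of_not_mem (fun h => hx (hCX h))
  have hs' : ∀ x, x ∉ X → γ x = 0 := fun x hx => hγ x (fun h => hx (hCX h))
  apply eq_of_res (mulF_supp X hs hs') hs'
  rw [mulF_res X γ hs]
  have h2 : (fun t : X => br V (PP.ext0 X c) t) = br (V.subgroupOf X) c :=
    funext (br_ext0 hVX c)
  rw [h2, h]

end nested

theorem nlb : NlbStmt := by
  intro ℓ _ M _ hM G _ _ e V γ hL z hz b hb U hU f hf z' hz' c hc U' hU' f' hf'
  subst hU
  subst hU'
  have hF : GoodF ℓ (FF M) := H50.fld ℓ Fact.out M hM
  have hUX : U ≤ Subgroup.normalizer (U : Set G) := Subgroup.le_normalizer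
  have hCX : Subgroup.centralizer (U : Set G) ≤ Subgroup.normalizer (U : Set G) :=
    H85.cent_le_norm U
  have hUC : U ≤ Cu z := fun v hv =>
    Subgroup.mem_centralizer_singleton_iff.2 (hL.ab v hv z hz)
  have hCC : Subgroup.centralizer (U : Set G) ≤ Cu z := fun g hg =>
    Subgroup.mem_centralizer_singleton_iff.2 (Subgroup.mem_centralizer_iff.1 hg z hz).symm
  -- the two blocks of `N(U) ∩ C(z)`
  have hK : (Cu z').map (Subgroup.normalizer (U : Set G)).subtype =
      Subgroup.normalizer (U : Set G) ⊓ Cu z := by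
    have h1 := Pool.Agent.PP.H97.centralizer_map (Subgroup.normalizer (U : Set G)) z'
    rw [hz'] at h1
    rw [inf_comm]
    exact h1
  have hK' : (Subgroup.normalizer ((U.subgroupOf (Cu z) : Subgroup (Cu z)) : Set (Cu z))).map
      (Cu z).subtype = Subgroup.normalizer (U : Set G) ⊓ Cu z := by
    rw [← norm_sub hUC, Subgroup.subgroupOf_map_subtype, inf_assoc, inf_idem]
  have hβ := bx_ext _ _ hc.blk
  have hβ' := bx_ext _ _ hf'.blk
  rw [hK] at hβ
  rw [hK'] at hβ'
  have h1 := gam_ext hUX hCX hL.gam.supp hc.gam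
  have h2 : mulF (br U (PP.ext0 (Cu z) f')) γ = γ := by
    have h3 : br U (PP.ext0 (Cu z) f') = br U b := by
      apply eq_of_res (N := Cu z) (fun x hx => H66.br_of_not_mem (fun h => hx (hCC h)))
        (fun x hx => H66.br_of_not_mem (fun h => hx (hCC h)))
      have h4 : (fun t : Cu z => br U (PP.ext0 (Cu z) f') t) = br (U.subgroupOf (Cu z)) f' :=
        funext (br_ext0 hUC f')
      rw [h4, hf'.brV]
      funext t
      rw [← br_ext0 hUC (fun t : Cu z => b t) t, H46.ext0_restr hb.blk.supp]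
    rw [h3, hb.gam]
  have h3 := eq_of_gam hF hL.tp.pg (le_inf hUX hUC) hβ hβ' hL.gam.ne h1 h2
  rw [ln_ext, ln_ext, hK, hK', h3]

end Pool.Agent.PP.TV.H13
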